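import Pool.Agent.Work.MP_f4378e_lc.Chain
import Pool.Agent.FDia.CH

/-!
Every model of ZFC yields (by forcing) a model of ZFC and the continuum hypothesis, and the
continuum hypothesis implies that the set of natural numbers has a countably compact
(in particular Hausdorff) topological hyperextension.
-/

universe u

open Set Filter

namespace Pool.Agent.Results.MP_f4378e_lc.CountablyCompactHyper

/-- A topological extension of the set `X`: a T1 space `Y` (written *X in the problem) containing
`X` (via `ι`) as a dense discrete subspace, together with a continuous extension `star f` of each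
`f : X → X`, satisfying (c) and (i). -/
structure TopExt (X : Type) where
  /-- the points of the extension -/
  Y : Type
  /-- the topology of the extension -/
  [top : TopologicalSpace Y]
  t1 : T1Space Y
  /-- the inclusion of `X` -/
  ι : X → Y
  ι_injective : Function.Injective ι
  ι_dense : DenseRange ι
  ι_discrete : ∀ x : X, ∃ U : Set Y, IsOpen U ∧ U ∩ Set.range ι = {ι x}
  /-- the continuous extension of `f` -/
  star : (X → X) → Y → Y
  star_continuous : ∀ f : X → X, Continuous (star f)
  star_extends : ∀ (f : X → X) (x : X), star f (ι x) = ι (f x)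
  comp : ∀ f g : X → X, star g ∘ star f = star (g ∘ f)
  ident : ∀ (f : X → X) (A : Set X), (∀ x ∈ A, f x = x) → ∀ ξ ∈ closure (ι '' A), star f ξ = ξ

attribute [instance] TopExt.top

/-- The additional properties (a) and (p) of a hyperextension. -/
def TopExt.IsHyper {X : Type} (E : TopExt X) : Prop :=
  (∀ f g : X → X, (∀ x, f x ≠ g x) ↔ ∀ ξ, E.star f ξ ≠ E.star g ξ) ∧
  ∃ p q : X → X, ∀ ξ η : E.Y, ∃ ζ : E.Y, E.star p ζ = ξ ∧ E.star q ζ = η

/-- Countably compact: Hausdorff, and every countable open cover has a finite subcover. -/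
def CountablyCompact (Z : Type) [TopologicalSpace Z] : Prop :=
  T2Space Z ∧ ∀ U : ℕ → Set Z, (∀ n, IsOpen (U n)) → (⋃ n, U n) = Set.univ →
    ∃ s : Finset ℕ, (⋃ n ∈ s, U n) = Set.univ

open Pool.Agent.Work.MP_f4378e_lc

/-- The map induced on ultrafilters is continuous. -/
lemma continuous_map (f : ℕ → ℕ) : Continuous (Ultrafilter.map f) := by
  rw [(ultrafilterBasis_is_basis (α := ℕ)).continuous_iff]
  rintro _ ⟨s, rfl⟩
  exact ultrafilter_isOpen_basic (f ⁻¹' s)

/-- If the continuum hypothesis holds then `ℕ` has a countably compact hyperextension. -/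
theorem exists_of_ch (CH : Cardinal.aleph 1 = (Cardinal.continuum : Cardinal.{0})) :
    ∃ E : TopExt ℕ, E.IsHyper ∧ CountablyCompact E.Y := by
  classical
  obtain ⟨C, hCne, hC1, hC2⟩ := exists_family CH
  -- the points of the extension
  let Y : Set (Ultrafilter ℕ) := {u | ∃ c ∈ C, ∃ f : ℕ → ℕ, c.map f = u}
  have hYmap : ∀ u ∈ Y, ∀ g : ℕ → ℕ, u.map g ∈ Y := by
    rintro _ ⟨c, hc, f, rfl⟩ g
    exact ⟨c, hc, g ∘ f, by rw [Ultrafilter.map_map]⟩
  have hYH : ∀ u ∈ Y, Hausd u := by
    rintro _ ⟨c, hc, f, rfl⟩
    exact (hC1 c hc).map f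
  -- countably many points are images of one member of the family
  have hbound : ∀ y : ℕ → Y, ∃ d ∈ C, ∃ f : ℕ → ℕ → ℕ, ∀ n, d.map (f n) = (y n).1 := by
    intro y
    have : ∀ n, ∃ c ∈ C, ∃ f : ℕ → ℕ, c.map f = (y n).1 := fun n => (y n).2
    choose c hc f hf using this
    obtain ⟨d, hd, hcd⟩ := hC2 c hc
    choose g hg using fun n => (hcd n).exists_map
    refine ⟨d, hd, fun n => f n ∘ g n, fun n => ?_⟩
    rw [← Ultrafilter.map_map, hg, hf]
  have hpure : ∀ x : ℕ, (pure x : Ultrafilter ℕ) ∈ Y := by
    intro x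
    obtain ⟨c, hc⟩ := hCne
    refine ⟨c, hc, fun _ => x, ?_⟩
    apply Ultrafilter.coe_injective
    rw [Ultrafilter.coe_map, Filter.map_const, Ultrafilter.coe_pure]
  have hbasis : ∀ (U : Set Y), IsOpen U → ∀ u ∈ U, ∃ s : Set ℕ, s ∈ u.1 ∧
      ∀ v : Y, s ∈ v.1 → v ∈ U := by
    intro U hU u hu
    obtain ⟨W, hW, rfl⟩ := isOpen_induced_iff.mp hU
    obtain ⟨_, ⟨s, rfl⟩, hs, hsW⟩ :=
      (ultrafilterBasis_is_basis (α := ℕ)).exists_subset_of_mem_open hu hW
    exact ⟨s, hs, fun v hv => hsW hv⟩
  have hopen : ∀ s : Set ℕ, IsOpen {u : Y | s ∈ u.1} := fun s =>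
    (ultrafilter_isOpen_basic s).preimage continuous_subtype_val
  have hclosed : ∀ s : Set ℕ, IsClosed {u : Y | s ∈ u.1} := fun s =>
    (ultrafilter_isClosed_basic s).preimage continuous_subtype_val
  let E : TopExt ℕ :=
    { Y := Y
      t1 := inferInstance
      ι := fun x => ⟨pure x, hpure x⟩
      ι_injective := fun x y hxy => Ultrafilter.pure_injective (congrArg Subtype.val hxy)
      ι_dense := by
        rw [DenseRange, dense_iff_inter_open]
        rintro U hU ⟨u, hu⟩
        obtain ⟨s, hs, hsU⟩ := hbasis U hU u hu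
        obtain ⟨x, hx⟩ := Ultrafilter.nonempty_of_mem hs
        exact ⟨⟨pure x, hpure x⟩, hsU _ hx, x, rfl⟩
      ι_discrete := by
        intro x
        refine ⟨{u : Y | {x} ∈ u.1}, hopen _, ?_⟩
        ext u
        constructor
        · rintro ⟨hu, y, rfl⟩
          have : y = x := hu
          rw [this]
          rfl
        · intro hu
          have hu' : u = ⟨pure x, hpure x⟩ := hu
          rw [hu']
          exact ⟨rfl, x, rfl⟩
      star := fun f u => ⟨u.1.map f, hYmap u.1 u.2 f⟩
      star_continuous := fun f =>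
        ((continuous_map f).comp continuous_subtype_val).subtype_mk _
      star_extends := fun f x => by
        apply Subtype.ext
        exact Ultrafilter.map_pure f x
      comp := fun f g => by
        funext u
        apply Subtype.ext
        exact Ultrafilter.map_map u.1 f g
      ident := by
        intro f A hA ξ hξ
        have h1 : A ∈ ξ.1 := by
          have : closure ((fun x => (⟨pure x, hpure x⟩ : Y)) '' A) ⊆ {u : Y | A ∈ u.1} := by
            apply closure_minimal _ (hclosed A)
            rintro _ ⟨x, hx, rfl⟩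
            exact hx
          exact this hξ
        apply Subtype.ext
        show ξ.1.map f = ξ.1
        apply Ultrafilter.coe_injective
        rw [Ultrafilter.coe_map]
        conv_rhs => rw [← Filter.map_id (f := (ξ.1 : Filter ℕ))]
        apply Filter.map_congr
        filter_upwards [h1] with x hx
        exact hA x hx }
  refine ⟨E, ⟨?_, ?_⟩, ?_, ?_⟩
  · intro f g
    constructor
    · rintro hfg ⟨u, hu⟩ heq
      have h1 : u.map f = u.map g := congrArg Subtype.val heq
      obtain ⟨x, hx⟩ := (hYH u hu f g h1).exists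
      exact hfg x hx
    · intro h x hx
      apply h ⟨pure x, hpure x⟩
      apply Subtype.ext
      show (pure x : Ultrafilter ℕ).map f = (pure x : Ultrafilter ℕ).map g
      rw [Ultrafilter.map_pure, Ultrafilter.map_pure, hx]
  · refine ⟨fun n => n.unpair.1, fun n => n.unpair.2, ?_⟩
    intro ξ η
    obtain ⟨d, hd, f, hf⟩ := hbound (fun n => if n = 0 then ξ else η)
    refine ⟨⟨d.map (fun x => Nat.pair (f 0 x) (f 1 x)), d, hd, _, rfl⟩, ?_, ?_⟩
    · apply Subtype.ext
      show (d.map (fun x => Nat.pair (f 0 x) (f 1 x))).map (fun n => n.unpair.1) = ξ.1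
      have h0 := hf 0
      rw [if_pos rfl] at h0
      rw [← h0, Ultrafilter.map_map]
      congr 1
      funext x
      simp
    · apply Subtype.ext
      show (d.map (fun x => Nat.pair (f 0 x) (f 1 x))).map (fun n => n.unpair.2) = η.1
      have h0 := hf 1
      rw [if_neg one_ne_zero] at h0
      rw [← h0, Ultrafilter.map_map]
      congr 1
      funext x
      simp
  · show T2Space Y
    infer_instance
  · intro U hU hUcov
    by_contra hcon
    push Not at hcon
    have hch : ∀ n : ℕ, ∃ y : Y, ∀ k ≤ n, y ∉ U k := by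
      intro n
      have := hcon (Finset.range (n + 1))
      rw [Set.ne_univ_iff_exists_notMem] at this
      obtain ⟨y, hy⟩ := this
      refine ⟨y, fun k hk hyk => hy ?_⟩
      simp only [mem_iUnion]
      exact ⟨k, by simpa [Nat.lt_succ_iff] using hk, hyk⟩
    choose y hy using hch
    obtain ⟨c, hc, f, hf⟩ := hbound y
    obtain ⟨d, hd, hcd⟩ := hC2 (fun _ => c) (fun _ => hc)
    obtain ⟨V, hV, g, hg⟩ := hcd 0
    let z : Y := ⟨(USum V (fun _ => c)).map (fun t => f t.unpair.1 t.unpair.2), by
      rw [← hg, Ultrafilter.map_map]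
      exact ⟨d, hd, _, rfl⟩⟩
    have hz : z ∈ ⋃ n, U n := by
      rw [hUcov]
      trivial
    obtain ⟨k, hk⟩ := mem_iUnion.mp hz
    obtain ⟨s, hs, hsU⟩ := hbasis (U k) (hU k) z hk
    have hs' : s ∈ (USum V (fun _ => c)).map (fun t => f t.unpair.1 t.unpair.2) := hs
    rw [mem_map_uSum] at hs'
    simp only [Nat.unpair_pair] at hs'
    have hlarge : ∀ᶠ n in (V : Filter ℕ), k ≤ n := by
      apply hV
      rw [mem_cofinite]
      refine (Set.finite_Iio k).subset ?_
      intro n hn
      simpa using hn
    obtain ⟨n, hn, hkn⟩ := (hs'.and hlarge).exists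
    have h2 : s ∈ (y n).1 := by
      rw [← hf n]
      exact hn
    exact hy n k hkn (hsU _ h2)

/-- (1) If there is a model `(M, ∈)` of ZFC then there is a model `(N, ∈)` of ZFC in which the
continuum hypothesis holds. (2) If the continuum hypothesis holds then `ℕ` has a countably compact
hyperextension. -/
theorem result :
    (∀ (M : Type u) [Membership M M] [Pool.Agent.SigB.IsZFC M],
      ∃ (N : Type u) (_ : Membership N N), Pool.Agent.SigB.IsZFC N ∧ Pool.Agent.Forc.CH N) ∧
    (Cardinal.aleph 1 = (Cardinal.continuum : Cardinal.{0}) →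
      ∃ E : TopExt ℕ, E.IsHyper ∧ CountablyCompact E.Y) :=
  ⟨fun M _ _ => Pool.Agent.FDia.exists_ch M, exists_of_ch⟩

end Pool.Agent.Results.MP_f4378e_lc.CountablyCompactHyper
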